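import Pool.Agent.H85.Fold4.Pull
import Pool.Agent.H85.Fold3.Conv

/-!
# Project FOLD, fourth stage: graphs with folding vectors
-/

set_option autoImplicit false

open Finset

namespace Pool.Agent.H85.Fold4

open Pool.Agent.H4.Singer Pool.Agent.H85.Fold Pool.Agent.H85.Fold2 Pool.Agent.H85.Fold3
  Pool.Agent.H4.Fold3

/-- The induced subgraph of `G` on `L` has (normalized) folding vectors in dimension `n`: there are
`m` and vectors `x v = (p v, a v)` (`v ∈ L`) in the quadratic space `ℝ^{n,m}` with form
`p ⬝ᵥ p' - a ⬝ᵥ a'`, such that `x v` has length one, `x u` and `x v` are orthogonal if `u`, `v` are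
adjacent, and have a negative product if `u ≠ v` are not adjacent.  In other words, the right-angled
Coxeter group of the graph is generated by the reflections in the vectors `x v` of `ℝ^{n,m}`, as a
group generated by the reflections in the walls of a right-angled polyhedral cone. -/
def HasFold {V : Type} (G : SimpleGraph V) (n : ℕ) (L : Finset V) : Prop :=
  ∃ (m : ℕ) (p : V → Fin n → ℝ) (a : V → Fin m → ℝ), IsFoldL G L p a

theorem hasFoldL_iff {V : Type} [DecidableEq V] [Fintype V] (G : SimpleGraph V) (k : ℕ)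
    (L : Finset V) : HasFoldL G k L ↔ HasFold G (2 * k) L := Iff.rfl

section

variable {V : Type} [DecidableEq V] {G : SimpleGraph V}

omit [DecidableEq V] in
theorem HasFold.pull {n : ℕ} {L : Finset V} (h : HasFold G n L) {V' : Type}
    {G' : SimpleGraph V'} {L' : Finset V'} {φ : V' → V} (hL : ∀ u ∈ L', φ u ∈ L)
    (hφ : ∀ u ∈ L', ∀ v ∈ L', φ u = φ v → u = v)
    (hadj : ∀ u ∈ L', ∀ v ∈ L', G'.Adj u v ↔ G.Adj (φ u) (φ v)) : HasFold G' n L' := by
  obtain ⟨m, p, a, hf⟩ := h
  refine ⟨m, fun v => p (φ v), fun v => a (φ v), ⟨?_, ?_, ?_⟩⟩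
  · intro v hv
    exact hf.one _ (hL v hv)
  · intro u hu v hv huv
    exact hf.zero _ (hL u hu) _ (hL v hv) ((hadj u hu v hv).1 huv)
  · intro u hu v hv hne huv
    exact hf.neg _ (hL u hu) _ (hL v hv) (fun h => hne (hφ u hu v hv h))
      (fun h => huv ((hadj u hu v hv).2 h))

private theorem append_dot {n m : ℕ} (x x' : Fin n → ℝ) (y y' : Fin m → ℝ) :
    Fin.append x y ⬝ᵥ Fin.append x' y' = x ⬝ᵥ x' + y ⬝ᵥ y' := by
  simp only [dotProduct, Fin.sum_univ_add, Fin.append_left, Fin.append_right]

/-- joins -/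
theorem HasFold.join {a b : ℕ} {A B : Finset V} (hAB : ∀ u ∈ A, ∀ v ∈ B, G.Adj u v)
    (hA : HasFold G a A) (hB : HasFold G b B) : HasFold G (a + b) (A ∪ B) := by
  obtain ⟨m, p, x, hf⟩ := hA
  obtain ⟨m', p', x', hf'⟩ := hB
  have hd : ∀ v ∈ B, v ∉ A := fun v hv hvA => (hAB v hvA v hv).ne rfl
  refine ⟨m + m', fun v => if v ∈ A then Fin.append (p v) 0 else Fin.append 0 (p' v),
    fun v => if v ∈ A then Fin.append (x v) 0 else Fin.append 0 (x' v), ⟨?_, ?_, ?_⟩⟩
  · intro v hv
    by_cases hvA : v ∈ A
    · simp only [if_pos hvA, append_dot, dotProduct_zero, add_zero]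
      exact hf.one v hvA
    · have hvB : v ∈ B := (Finset.mem_union.1 hv).resolve_left hvA
      simp only [if_neg hvA, append_dot, dotProduct_zero, zero_add]
      exact hf'.one v hvB
  · intro u hu v hv huv
    by_cases huA : u ∈ A
    · by_cases hvA : v ∈ A
      · simp only [if_pos huA, if_pos hvA, append_dot, dotProduct_zero, add_zero]
        exact hf.zero u huA v hvA huv
      · simp only [if_pos huA, if_neg hvA, append_dot, dotProduct_zero, zero_dotProduct, add_zero]
    · by_cases hvA : v ∈ A
      · simp only [if_neg huA, if_pos hvA, append_dot, dotProduct_zero, zero_dotProduct, add_zero]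
      · simp only [if_neg huA, if_neg hvA, append_dot, dotProduct_zero, zero_add]
        exact hf'.zero u ((Finset.mem_union.1 hu).resolve_left huA) v
          ((Finset.mem_union.1 hv).resolve_left hvA) huv
  · intro u hu v hv hne huv
    by_cases huA : u ∈ A
    · by_cases hvA : v ∈ A
      · simp only [if_pos huA, if_pos hvA, append_dot, dotProduct_zero, add_zero]
        exact hf.neg u huA v hvA hne huv
      · exact absurd (hAB u huA v ((Finset.mem_union.1 hv).resolve_left hvA)) huv
    · by_cases hvA : v ∈ A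
      · exact absurd (hAB v hvA u ((Finset.mem_union.1 hu).resolve_left huA)).symm huv
      · simp only [if_neg huA, if_neg hvA, append_dot, dotProduct_zero, zero_add]
        exact hf'.neg u ((Finset.mem_union.1 hu).resolve_left huA) v
          ((Finset.mem_union.1 hv).resolve_left hvA) hne huv

end

section

variable {W : Type} [DecidableEq W] [Fintype W] {H : SimpleGraph W}

/-- normalized folding vectors give linearly independent folding vectors -/
theorem HasFold.indep {n : ℕ} (h : HasFold H n univ) :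
    ∃ (m : ℕ) (p : W → Fin n → ℝ) (a : W → Fin m → ℝ), IsFoldR H p a ∧
      LinearIndependent ℝ a := by
  obtain ⟨m, p, a, hf⟩ := h
  have hdot : ∀ u v, Fin.append (a u) (fun j => if (Fintype.equivFin W) u = j then (1 : ℝ) else 0) ⬝ᵥ
      Fin.append (a v) (fun j => if (Fintype.equivFin W) v = j then (1 : ℝ) else 0) =
      a u ⬝ᵥ a v + if u = v then 1 else 0 := by
    intro u v
    rw [append_dot]
    congr 1
    simp [dotProduct]
  refine ⟨m + Fintype.card W, p, fun v => Fin.append (a v)
    (fun j => if (Fintype.equivFin W) v = j then (1 : ℝ) else 0), ⟨?_, ?_⟩, ?_⟩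
  · rintro u v (rfl | huv)
    · rw [hdot, if_pos rfl]
      exact hf.one u (Finset.mem_univ u)
    · rw [hdot, if_neg huv.ne, add_zero]
      exact hf.zero u (Finset.mem_univ u) v (Finset.mem_univ v) huv
  · intro u v hne huv
    rw [hdot, if_neg hne, add_zero]
    exact hf.neg u (Finset.mem_univ u) v (Finset.mem_univ v) hne huv
  · rw [Fintype.linearIndependent_iff]
    intro c hc v
    have h1 := congrFun hc (Fin.natAdd m ((Fintype.equivFin W) v))
    simpa [Finset.sum_apply] using h1

theorem HasFold.isFoldSphere {n : ℕ} (h : HasFold H n univ) (hH : IsHomologySphere H n) :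
    IsFoldSphere H n := by
  obtain ⟨m, p, a, hf, -⟩ := h.indep
  exact ⟨hH, m, p, a, hf⟩

/-- edge subdivisions -/
theorem HasFold.subdiv {n : ℕ} (h : HasFold H n univ) {u w : W} (huw : H.Adj u w) :
    HasFold (subdiv H u w) n univ := by
  obtain ⟨m, p, a, hf, ha⟩ := h.indep
  obtain ⟨m', p', a', hf', ha'⟩ := subdiv_fold hf ha huw
  exact exists_foldL hf' ha'

/-- simplicial arrangements -/
theorem _root_.Pool.Agent.H85.Fold2.IsArrangementR.hasFold {n m : ℕ} {h : Fin m → Fin n → ℝ}
    {r : W → Fin n → ℝ} (A : IsArrangementR H n h r) : HasFold H n univ := by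
  obtain ⟨-, m, p, a, hf, ha⟩ := A.isFoldSphereN
  exact exists_foldL hf ha

/-- circles -/
theorem _root_.Pool.Agent.H85.Fold.IsHomologySphere.hasFold_two (hH : IsHomologySphere H 2) :
    HasFold H 2 univ := by
  obtain ⟨ν, hν⟩ : ∃ ν : W → ℕ, Function.Injective ν :=
    ⟨fun v => (Fintype.equivFin W v : ℕ), fun a b h =>
      (Fintype.equivFin W).injective (Fin.ext h)⟩
  obtain ⟨o, ho⟩ := hH.isSphere ν hν
  obtain ⟨p, a, hf⟩ := circle_foldL hν ho
  exact ⟨1, p, a, hf⟩

end

end Pool.Agent.H85.Fold4
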