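import Pool.Agent.H85.Fold4.Base

/-!
# Project FOLD: the definitions used in the statement of the main theorem, second part
-/

set_option autoImplicit false

open Finset

namespace Pool.Agent.H85.Fold4

/-- `Folding G n`: the least class of graphs which contains
* `vec`: graphs with vectors `(p v, a v)` in some `ℝ^{n,m}` of length one (`p ⬝ᵥ p - a ⬝ᵥ a = 1`),
  orthogonal for adjacent vertices, and with negative product for nonadjacent vertices (so the
  right-angled Coxeter group is a group generated by reflections in `ℝ^{n,m}`);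
* `arr`: the complexes of the real, essential simplicial hyperplane arrangements in `ℝⁿ`;
* `circle`: circles (`n = 2`);
and is closed under
* `subdiv`: edge subdivisions;
* `split`: vertex splits, if `G[A - B]` and `G[B - A]` are connected, the link `G[A ∩ B]` of the new
  edge is a join of pairs of points and pentagons, and a clique of `n` of its vertices is joined to
  vertices of `A - B` and of `B - A`;
* `join`: joins;
* `induced`: induced subgraphs. -/
inductive Folding : ∀ {V : Type}, SimpleGraph V → ℕ → Prop
  | vec {V : Type} (G : SimpleGraph V) (n m : ℕ) (p : V → Fin n → ℝ) (a : V → Fin m → ℝ)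
      (one : ∀ v, p v ⬝ᵥ p v = a v ⬝ᵥ a v + 1)
      (zero : ∀ u v, G.Adj u v → p u ⬝ᵥ p v = a u ⬝ᵥ a v)
      (neg : ∀ u v, u ≠ v → ¬ G.Adj u v → p u ⬝ᵥ p v < a u ⬝ᵥ a v) : Folding G n
  | arr {V : Type} [Finite V] (G : SimpleGraph V) (n m : ℕ) (h : Fin m → Fin n → ℝ)
      (r : V → Fin n → ℝ) (hG : Arrangement G n h r) : Folding G n
  | circle {V : Type} (G : SimpleGraph V) (decV : DecidableEq V) (finV : Fintype V)
      (hG : HomologySphere G 2) : Folding G 2
  | subdiv {V : Type} (G : SimpleGraph V) (n : ℕ) (u w : V) (huw : G.Adj u w) :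
      Folding G n → Folding (edgeSubdiv G u w) n
  | split {V : Type} (G : SimpleGraph V) (n : ℕ) (x : V) (A B : Set V)
      (hx : A ∪ B = G.neighborSet x) (hA : (G.induce (A \ B)).Preconnected)
      (hB : (G.induce (B \ A)).Preconnected) (hC : SmallSphere (G.induce (A ∩ B)) n)
      (ρ : Finset V) (hρ : (ρ : Set V) ⊆ A ∩ B) (hcl : G.IsClique (ρ : Set V)) (hcard : ρ.card = n)
      (a b : V) (ha : a ∈ A \ B) (hb : b ∈ B \ A) (hab : ∀ c ∈ ρ, G.Adj a c ∧ G.Adj b c) :
      Folding G (n + 2) → Folding (vertexSplit G x A B) (n + 2)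
  | join {V W : Type} (G : SimpleGraph V) (H : SimpleGraph W) (a b : ℕ) :
      Folding G a → Folding H b → Folding (joinG G H) (a + b)
  | induced {V W : Type} [Finite W] (G : SimpleGraph V) (H : SimpleGraph W) (n : ℕ)
      (φ : G ↪g H) : Folding H n → Folding G n

/-- `Vanish G k`: the least class of graphs which contains
* `small`: graphs without cliques of `k + 1` vertices;
* `fold`: homology spheres of dimension `n - 1 ≤ 2 k` with vectors `(p v, a v)` in some `ℝ^{n,m}`
  which are isotropic, orthogonal for adjacent vertices and have negative products for nonadjacent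
  vertices;
and is closed under
* `induced`: induced subgraphs;
* `join`: joins (products of groups), where `k` is additive;
* `glue`: unions (for `k + 1`) of two induced subgraphs without edges between their differences, if
  the intersection is in the class for `k`;
* `vertex`: adding a vertex whose link is in the class for `k` to a graph in the class for `k + 1`;
* `link`: in a homology sphere `H` of dimension `2 k`, adding a vertex `u` of `H` whose link is in
  the class `Folding` for `2 k` to an induced subgraph. -/
inductive Vanish : ∀ {V : Type}, SimpleGraph V → ℕ → Prop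
  | small {V : Type} (G : SimpleGraph V) (k : ℕ) (hG : G.CliqueFree (k + 1)) : Vanish G k
  | fold {V : Type} (G : SimpleGraph V) (decV : DecidableEq V) (finV : Fintype V) (k n m : ℕ)
      (hn : n ≤ 2 * k + 1) (hG : HomologySphere G n) (p : V → Fin n → ℝ) (a : V → Fin m → ℝ)
      (zero : ∀ u v, u = v ∨ G.Adj u v → p u ⬝ᵥ p v = a u ⬝ᵥ a v)
      (neg : ∀ u v, u ≠ v → ¬ G.Adj u v → p u ⬝ᵥ p v < a u ⬝ᵥ a v) : Vanish G k
  | induced {V W : Type} [Finite W] (G : SimpleGraph V) (H : SimpleGraph W) (k : ℕ)
      (φ : G ↪g H) : Vanish H k → Vanish G k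
  | join {V W : Type} (G : SimpleGraph V) (H : SimpleGraph W) (a b : ℕ) :
      Vanish G a → Vanish H b → Vanish (joinG G H) (a + b)
  | glue {V : Type} (G : SimpleGraph V) (k : ℕ) (s t : Set V) (hst : s ∪ t = Set.univ)
      (h : ∀ u ∈ s \ t, ∀ v ∈ t \ s, ¬ G.Adj u v) :
      Vanish (G.induce s) (k + 1) → Vanish (G.induce t) (k + 1) → Vanish (G.induce (s ∩ t)) k →
        Vanish G (k + 1)
  | vertex {V : Type} (G : SimpleGraph V) (k : ℕ) (v : V) :
      Vanish (G.induce (G.neighborSet v)) k → Vanish (G.induce {v}ᶜ) (k + 1) → Vanish G (k + 1)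
  | link {V : Type} (H : SimpleGraph V) (decV : DecidableEq V) (finV : Fintype V) (k : ℕ)
      (hH : HomologySphere H (2 * k + 1)) (u : V)
      (hu : Folding (H.induce (H.neighborSet u)) (2 * k)) (s : Set V) :
      Vanish (H.induce (s \ {u})) k → Vanish (H.induce s) k

end Pool.Agent.H85.Fold4
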