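import Pool.Agent.H85.Fold4.Sources
import Pool.Agent.H85.Fold4.Stmt
import Pool.Agent.H4.Split.Final

/-!
# Project FOLD, fourth stage: the class of graphs in the language of Mathlib
-/

set_option autoImplicit false

open Finset

namespace Pool.Agent.H85.Fold4

open Pool.Agent.H4.Singer Pool.Agent.H85.Fold Pool.Agent.H85.Fold2 Pool.Agent.H85.Fold3
  Pool.Agent.H4.Fold3

section

variable {V : Type} [DecidableEq V] [Fintype V] {G : SimpleGraph V}

omit [DecidableEq V] [Fintype V] in
theorem cl_iff {σ : Finset V} : Cl G σ ↔ G.IsClique (σ : Set V) :=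
  ⟨fun h _ ha _ hb => h _ (Finset.mem_coe.1 ha) _ (Finset.mem_coe.1 hb),
    fun h _ ha _ hb => h (Finset.mem_coe.2 ha) (Finset.mem_coe.2 hb)⟩

omit [Fintype V] in
theorem linkChain_iff {ρ : Finset V} {j : ℕ} {z : Finset V → ℝ} :
    LinkChain G ρ j z ↔ LinkCh G ρ j z := by
  unfold LinkChain LinkCh
  simp only [cl_iff]

theorem bdy_eq (ν : V → ℕ) (z : Finset V → ℝ) : bdy ν z = bd ν z := rfl

theorem HomologySphere.is {n : ℕ} (h : HomologySphere G n) : IsHomologySphere G n := by
  refine ⟨fun σ hσ => h.dim σ (cl_iff.1 hσ), ?_, ?_⟩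
  · intro ν hν ρ hρ j hj z hz hz0
    obtain ⟨y, hy, hyz⟩ := h.low ν hν ρ (cl_iff.1 hρ) j hj z (linkChain_iff.1 hz) hz0
    exact ⟨y, linkChain_iff.2 hy, hyz⟩
  · intro ν hν ρ hρ j hj
    obtain ⟨o, ho, ho0, hne, hu⟩ := h.top ν hν ρ (cl_iff.1 hρ) j hj
    exact ⟨o, linkChain_iff.2 ho, ho0, hne, fun z hz hz0 => hu z (linkChain_iff.1 hz) hz0⟩

omit [DecidableEq V] [Fintype V] in
theorem Arrangement.is {n m : ℕ} {h : Fin m → Fin n → ℝ} {r : V → Fin n → ℝ}
    (A : Arrangement G n h r) : IsArrangementR G n h r := by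
  refine ⟨A.adj, fun σ hσ => A.indep σ (cl_iff.1 hσ), fun x => ?_⟩
  obtain ⟨σ, c, hσ, hc, hx⟩ := A.cover x
  exact ⟨σ, c, cl_iff.2 hσ, hc, hx⟩

omit [DecidableEq V] [Fintype V] in
theorem edgeSubdiv_eq (u w : V) : edgeSubdiv G u w = subdiv G u w := by
  ext x y
  rcases x with _ | a <;> rcases y with _ | b <;> exact Iff.rfl

end

private theorem append_dot' {n m : ℕ} (x x' : Fin n → ℝ) (y y' : Fin m → ℝ) :
    Fin.append x y ⬝ᵥ Fin.append x' y' = x ⬝ᵥ x' + y ⬝ᵥ y' := by
  simp only [dotProduct, Fin.sum_univ_add, Fin.append_left, Fin.append_right]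

private theorem hasFold_joinG {V W : Type} [Fintype V] [Fintype W] [Fintype (V ⊕ W)]
    {G : SimpleGraph V} {H : SimpleGraph W} {a b : ℕ} (hG : HasFold G a univ)
    (hH : HasFold H b univ) : HasFold (joinG G H) (a + b) univ := by
  obtain ⟨m, p, x, hf⟩ := hG
  obtain ⟨m', p', x', hf'⟩ := hH
  refine ⟨m + m', Sum.elim (fun v => Fin.append (p v) 0) (fun w => Fin.append 0 (p' w)),
    Sum.elim (fun v => Fin.append (x v) 0) (fun w => Fin.append 0 (x' w)), ⟨?_, ?_, ?_⟩⟩
  · rintro (v | v) _
    · simp only [Sum.elim_inl, append_dot', dotProduct_zero, add_zero]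
      exact hf.one v (Finset.mem_univ v)
    · simp only [Sum.elim_inr, append_dot', dotProduct_zero, zero_add]
      exact hf'.one v (Finset.mem_univ v)
  · rintro (u | u) _ (v | v) _ huv
    · simp only [Sum.elim_inl, append_dot', dotProduct_zero, add_zero]
      exact hf.zero u (Finset.mem_univ u) v (Finset.mem_univ v) huv
    · simp only [Sum.elim_inl, Sum.elim_inr, append_dot', dotProduct_zero, zero_dotProduct,
        add_zero]
    · simp only [Sum.elim_inl, Sum.elim_inr, append_dot', dotProduct_zero, zero_dotProduct,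
        add_zero]
    · simp only [Sum.elim_inr, append_dot', dotProduct_zero, zero_add]
      exact hf'.zero u (Finset.mem_univ u) v (Finset.mem_univ v) huv
  · rintro (u | u) _ (v | v) _ hne huv
    · simp only [Sum.elim_inl, append_dot', dotProduct_zero, add_zero]
      exact hf.neg u (Finset.mem_univ u) v (Finset.mem_univ v) (fun h => hne (by rw [h])) huv
    · exact absurd trivial huv
    · exact absurd trivial huv
    · simp only [Sum.elim_inr, append_dot', dotProduct_zero, zero_add]
      exact hf'.neg u (Finset.mem_univ u) v (Finset.mem_univ v) (fun h => hne (by rw [h])) huv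

theorem Folding.hasFold {V : Type} {G : SimpleGraph V} {n : ℕ} (h : Folding G n) :
    ∀ [Fintype V], HasFold G n univ := by
  classical
  induction h with
  | vec G n m p a one zero neg =>
    intro _
    exact ⟨m, p, a, ⟨fun v _ => one v, fun u _ v _ => zero u v, fun u _ v _ => neg u v⟩⟩
  | arr G n m h r hG =>
    intro f
    exact hG.is.hasFold
  | circle G decV finV hG =>
    intro f
    obtain rfl : f = finV := Subsingleton.elim _ _
    exact hG.is.hasFold_two
  | @subdiv V G n u w huw _ ih =>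
    intro f
    have : Finite V := Finite.of_injective (Option.some (α := V)) (Option.some_injective V)
    let _ : Fintype V := Fintype.ofFinite V
    obtain rfl : f = instFintypeOption := Subsingleton.elim _ _
    rw [edgeSubdiv_eq]
    exact ih.subdiv huw
  | @split V G n x A B hx hA hB hC ρ hρ hcl hcard a b ha hb hab _ ih =>
    intro f
    have : Finite V := Finite.of_injective (Option.some (α := V)) (Option.some_injective V)
    let _ : Fintype V := Fintype.ofFinite V
    obtain rfl : f = instFintypeOption := Subsingleton.elim _ _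
    exact Pool.Agent.H4.Split.hasFold_split x A B hx hA hB hC ρ hρ hcl hcard a b ha hb hab ih
  | @join V W G H a b _ _ ih1 ih2 =>
    intro f
    have : Finite V := Finite.of_injective (Sum.inl (α := V) (β := W)) Sum.inl_injective
    have : Finite W := Finite.of_injective (Sum.inr (α := V) (β := W)) Sum.inr_injective
    let _ : Fintype V := Fintype.ofFinite V
    let _ : Fintype W := Fintype.ofFinite W
    exact hasFold_joinG ih1 ih2
  | @induced V W G H _ n φ _ ih =>
    intro f
    let _ : Fintype W := Fintype.ofFinite W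
    exact ih.pull (φ := φ) (fun _ _ => Finset.mem_univ _) (fun _ _ _ _ h => φ.injective h)
      (fun _ _ _ _ => φ.map_rel_iff.symm)

private theorem hasFoldL_of_induce {V : Type} [DecidableEq V] [Fintype V] {H : SimpleGraph V}
    {u : V} {n : ℕ} (h : Folding (H.induce (H.neighborSet u)) n) :
    HasFold H n (nbr H u univ) := by
  classical
  have h1 := h.hasFold
  by_cases hne : ∃ w, H.Adj u w
  · obtain ⟨w₀, hw₀⟩ := hne
    refine h1.pull (φ := fun w => if hw : H.Adj u w then ⟨w, hw⟩ else ⟨w₀, hw₀⟩)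
      (fun _ _ => Finset.mem_univ _) ?_ ?_
    · intro x hx y hy hxy
      have hx' : H.Adj u x := (mem_nbr.1 hx).2
      have hy' : H.Adj u y := (mem_nbr.1 hy).2
      simp only [hx', hy', dif_pos] at hxy
      exact congrArg Subtype.val hxy
    · intro x hx y hy
      have hx' : H.Adj u x := (mem_nbr.1 hx).2
      have hy' : H.Adj u y := (mem_nbr.1 hy).2
      simp only [hx', hy', dif_pos, SimpleGraph.comap_adj, Function.Embedding.subtype_apply]
  · have h0 : ∀ w, w ∉ nbr H u univ := fun w hw => hne ⟨w, (mem_nbr.1 hw).2⟩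
    exact ⟨0, fun _ _ => 0, fun _ _ => 0, ⟨fun v hv => absurd hv (h0 v),
      fun v hv => absurd hv (h0 v), fun v hv => absurd hv (h0 v)⟩⟩

private theorem good_of_induce {V : Type} [DecidableEq V] [Fintype V] {G : SimpleGraph V} {k : ℕ}
    {s : Set V} [DecidableEq s] [Fintype s] {Y : Finset V} (hY : ∀ v ∈ Y, v ∈ s)
    (h : Good (G.induce s) k univ) : Good G k Y := by
  classical
  rcases Y.eq_empty_or_nonempty with rfl | ⟨v₀, hv₀⟩
  · exact Good.empty k
  · refine h.pull (φ := fun v => if hv : v ∈ s then ⟨v, hv⟩ else ⟨v₀, hY v₀ hv₀⟩)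
      (fun _ _ => Finset.mem_univ _) ?_ ?_
    · intro x hx y hy hxy
      simp only [hY x hx, hY y hy, dif_pos] at hxy
      exact congrArg Subtype.val hxy
    · intro x hx y hy
      simp only [hY x hx, hY y hy, dif_pos, SimpleGraph.comap_adj,
        Function.Embedding.subtype_apply]

private theorem good_induce {V : Type} [DecidableEq V] [Fintype V] {G : SimpleGraph V} {k : ℕ}
    {s : Set V} [DecidableEq s] [Fintype s] {Y : Finset V} (hY : ∀ v ∈ s, v ∈ Y)
    (h : Good G k Y) : Good (G.induce s) k univ :=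
  h.pull (φ := Subtype.val) (fun v _ => hY v v.2) (fun _ _ _ _ h => Subtype.ext h)
    (fun _ _ _ _ => Iff.rfl)

private theorem good_joinG_left {V W : Type} [DecidableEq V] [Fintype V] [DecidableEq (V ⊕ W)]
    [Fintype (V ⊕ W)] {G : SimpleGraph V} {H : SimpleGraph W} {k : ℕ} {A : Finset (V ⊕ W)}
    (hA : ∀ x ∈ A, x.isLeft) (h : Good G k univ) : Good (joinG G H) k A := by
  rcases A.eq_empty_or_nonempty with rfl | ⟨x₀, hx₀⟩
  · exact Good.empty k
  · obtain ⟨v₀, -⟩ := Sum.isLeft_iff.1 (hA x₀ hx₀)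
    refine h.pull (φ := Sum.elim id fun _ => v₀) (fun _ _ => Finset.mem_univ _) ?_ ?_
    · intro x hx y hy hxy
      obtain ⟨a, rfl⟩ := Sum.isLeft_iff.1 (hA x hx)
      obtain ⟨b, rfl⟩ := Sum.isLeft_iff.1 (hA y hy)
      exact congrArg Sum.inl hxy
    · intro x hx y hy
      obtain ⟨a, rfl⟩ := Sum.isLeft_iff.1 (hA x hx)
      obtain ⟨b, rfl⟩ := Sum.isLeft_iff.1 (hA y hy)
      exact Iff.rfl

private theorem good_joinG_right {V W : Type} [DecidableEq W] [Fintype W] [DecidableEq (V ⊕ W)]
    [Fintype (V ⊕ W)] {G : SimpleGraph V} {H : SimpleGraph W} {k : ℕ} {A : Finset (V ⊕ W)}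
    (hA : ∀ x ∈ A, x.isRight) (h : Good H k univ) : Good (joinG G H) k A := by
  rcases A.eq_empty_or_nonempty with rfl | ⟨x₀, hx₀⟩
  · exact Good.empty k
  · obtain ⟨v₀, -⟩ := Sum.isRight_iff.1 (hA x₀ hx₀)
    refine h.pull (φ := Sum.elim (fun _ => v₀) id) (fun _ _ => Finset.mem_univ _) ?_ ?_
    · intro x hx y hy hxy
      obtain ⟨a, rfl⟩ := Sum.isRight_iff.1 (hA x hx)
      obtain ⟨b, rfl⟩ := Sum.isRight_iff.1 (hA y hy)
      exact congrArg Sum.inr hxy
    · intro x hx y hy
      obtain ⟨a, rfl⟩ := Sum.isRight_iff.1 (hA x hx)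
      obtain ⟨b, rfl⟩ := Sum.isRight_iff.1 (hA y hy)
      exact Iff.rfl

theorem Vanish.good {V : Type} {G : SimpleGraph V} {k : ℕ} (h : Vanish G k) :
    ∀ [DecidableEq V] [Fintype V], Good G k univ := by
  classical
  induction h with
  | small G k hG =>
    intro _ _
    refine Good.of_small k univ fun σ _ hσ => ?_
    by_contra hcon
    push Not at hcon
    refine (hG.mono hcon) σ ⟨?_, rfl⟩
    intro a ha b hb hab
    exact hσ a (Finset.mem_coe.1 ha) b (Finset.mem_coe.1 hb) hab
  | @induced V W G H _ k φ _ ih =>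
    intro _ _
    let _ : Fintype W := Fintype.ofFinite W
    exact ih.pull (φ := φ) (fun _ _ => Finset.mem_univ _) (fun _ _ _ _ h => φ.injective h)
      (fun _ _ _ _ => φ.map_rel_iff.symm)
  | @join V W G H a b _ _ ih1 ih2 =>
    intro _ _
    have : Finite V := Finite.of_injective (Sum.inl (α := V) (β := W)) Sum.inl_injective
    have : Finite W := Finite.of_injective (Sum.inr (α := V) (β := W)) Sum.inr_injective
    let _ : Fintype V := Fintype.ofFinite V
    let _ : Fintype W := Fintype.ofFinite W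
    have h1 : (univ : Finset (V ⊕ W)) = univ.filter (fun x => x.isLeft) ∪
        univ.filter (fun x => x.isRight) := by
      ext x
      rcases x with x | x <;> simp
    rw [h1]
    refine Good.join a b _ _ ?_
      (good_joinG_left (fun x hx => (Finset.mem_filter.1 hx).2) ih1)
      (good_joinG_right (fun x hx => (Finset.mem_filter.1 hx).2) ih2)
    intro x hx y hy
    obtain ⟨a, rfl⟩ := Sum.isLeft_iff.1 (Finset.mem_filter.1 hx).2
    obtain ⟨b, rfl⟩ := Sum.isRight_iff.1 (Finset.mem_filter.1 hy).2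
    exact trivial
  | @glue V G k s t hst h _ _ _ ih1 ih2 ih3 =>
    intro _ _
    have h1 : (univ : Finset V) = univ.filter (fun x => x ∈ s) ∪ univ.filter (fun x => x ∈ t) := by
      ext x
      have hx : x ∈ s ∪ t := by rw [hst]; exact Set.mem_univ x
      simpa using hx
    rw [h1]
    refine Good.glue k _ _ ?_
      (good_of_induce (fun x hx => (Finset.mem_filter.1 hx).2) ih1)
      (good_of_induce (fun x hx => (Finset.mem_filter.1 hx).2) ih2)
      (good_of_induce (s := s ∩ t) (fun x hx => ?_) ih3)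
    · intro u hu v hv
      rw [Finset.mem_sdiff, Finset.mem_filter, Finset.mem_filter] at hu hv
      exact h u ⟨hu.1.2, fun h => hu.2 ⟨Finset.mem_univ _, h⟩⟩ v
        ⟨hv.1.2, fun h => hv.2 ⟨Finset.mem_univ _, h⟩⟩
    · rw [Finset.mem_inter, Finset.mem_filter, Finset.mem_filter] at hx
      exact ⟨hx.1.2, hx.2.2⟩
  | @vertex V G k v _ _ ih1 ih2 =>
    intro _ _
    refine Good.vertex (Finset.mem_univ v) (good_of_induce (fun x hx => (mem_nbr.1 hx).2) ih1)
      (good_of_induce (s := {v}ᶜ) (fun x hx => ?_) ih2)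
    exact fun h => (Finset.mem_erase.1 hx).1 h
  | @fold V G decV finV k n m hn hG p a zero neg =>
    intro d f
    obtain rfl : d = decV := Subsingleton.elim _ _
    obtain rfl : f = finV := Subsingleton.elim _ _
    exact Good.fold k n hn univ V d f G ⟨hG.is, m, p, a, ⟨zero, neg⟩⟩ id (fun _ _ _ _ h => h)
      (fun _ _ _ _ => Iff.rfl)
  | @link V H decV finV k hH u hu s _ ih =>
    intro _ _
    have h1 : Good H k (univ.filter (fun x => x ∈ s \ {u})) :=
      good_of_induce (fun x hx => (Finset.mem_filter.1 hx).2) ih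
    refine good_induce (Y := univ.filter (fun x => x ∈ s))
      (fun v hv => Finset.mem_filter.2 ⟨Finset.mem_univ _, hv⟩) ?_
    by_cases hus : u ∈ s
    · refine Good.link k _ u (Finset.mem_filter.2 ⟨Finset.mem_univ _, hus⟩) V decV finV H id
        (fun _ _ _ _ h => h) (fun _ _ _ _ => Iff.rfl) ⟨hH.is, hasFoldL_of_induce hu⟩ ?_
      refine h1.subset fun x hx => ?_
      rw [Finset.mem_erase, Finset.mem_filter] at hx
      exact Finset.mem_filter.2 ⟨Finset.mem_univ _, hx.2.2, hx.1⟩
    · refine h1.subset fun x hx => ?_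
      have hx' := (Finset.mem_filter.1 hx).2
      exact Finset.mem_filter.2 ⟨Finset.mem_univ _, hx', fun h => hus (h ▸ hx')⟩

/-- **The main theorem.** -/
theorem Vanish.l2 {V : Type} [DecidableEq V] [Fintype V] {G : SimpleGraph V} {k : ℕ}
    (h : Vanish G k) (i : ℕ) (hi : k < i) : L2HomologyZero G i :=
  h.good.l2 i hi

end Pool.Agent.H85.Fold4
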