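import Mathlib

/-!
# Project FOLD: the definitions used in the statement of the main theorem, first part
-/

set_option autoImplicit false

open Finset

namespace Pool.Agent.H85.Fold4

section

variable {V : Type} [DecidableEq V] [Fintype V]

/-- real simplicial chains of degree `j` (on simplices with `j` vertices) of the link of the clique
`ρ` in the clique complex of `G` -/
def LinkCh (G : SimpleGraph V) (ρ : Finset V) (j : ℕ) (z : Finset V → ℝ) : Prop :=
  ∀ σ, z σ ≠ 0 → Disjoint σ ρ ∧ G.IsClique ((σ ∪ ρ : Finset V) : Set V) ∧ σ.card = j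

/-- the simplicial boundary of the chain `z`; the signs come from the order of the vertices by
`ν` -/
def bdy (ν : V → ℕ) (z : Finset V → ℝ) (σ : Finset V) : ℝ :=
  ∑ v ∈ σᶜ, (-1) ^ (σ.filter fun u => ν u < ν v).card * z (insert v σ)

/-- The clique complex of `G` is a real homology sphere of dimension `n - 1`: for every clique `ρ`
(also for `ρ = ∅`) the link of `ρ` has the reduced real homology of the sphere of dimension
`n - 1 - |ρ|`. -/
structure HomologySphere (G : SimpleGraph V) (n : ℕ) : Prop where
  dim : ∀ σ : Finset V, G.IsClique (σ : Set V) → σ.card ≤ n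
  low : ∀ ν : V → ℕ, Function.Injective ν → ∀ ρ : Finset V, G.IsClique (ρ : Set V) → ∀ j,
    j + ρ.card < n → ∀ z, LinkCh G ρ j z → bdy ν z = 0 → ∃ y, LinkCh G ρ (j + 1) y ∧ bdy ν y = z
  top : ∀ ν : V → ℕ, Function.Injective ν → ∀ ρ : Finset V, G.IsClique (ρ : Set V) → ∀ j,
    j + ρ.card = n → ∃ o, LinkCh G ρ j o ∧ bdy ν o = 0 ∧ o ≠ 0 ∧
      ∀ z, LinkCh G ρ j z → bdy ν z = 0 → ∃ r : ℝ, z = r • o

end

/-- The hyperplanes `h i` form an essential simplicial arrangement in `ℝⁿ`, with rays `r v`, and `G`
is the 1-skeleton of its complex: two rays are adjacent if no hyperplane separates them, pairwise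
adjacent rays are linearly independent, and the cones of the cliques cover `ℝⁿ`. -/
structure Arrangement {V : Type} (G : SimpleGraph V) (n : ℕ) {m : ℕ} (h : Fin m → Fin n → ℝ)
    (r : V → Fin n → ℝ) : Prop where
  adj : ∀ u v, G.Adj u v ↔ u ≠ v ∧ ∀ i, 0 ≤ (h i ⬝ᵥ r u) * (h i ⬝ᵥ r v)
  indep : ∀ σ : Finset V, G.IsClique (σ : Set V) → ∀ c : V → ℝ, ∑ v ∈ σ, c v • r v = 0 →
    ∀ v ∈ σ, c v = 0
  cover : ∀ x : Fin n → ℝ, ∃ (σ : Finset V) (c : V → ℝ), G.IsClique (σ : Set V) ∧
    (∀ v ∈ σ, 0 ≤ c v) ∧ x = ∑ v ∈ σ, c v • r v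

/-- The subdivision of the edge `u w` (of the clique complex): the edge is removed, and the new
vertex `none` is joined to `u`, `w` and to the common neighbours of `u` and `w`. -/
def edgeSubdiv {V : Type} (G : SimpleGraph V) (u w : V) : SimpleGraph (Option V) where
  Adj x y := match x, y with
    | some a, some b => G.Adj a b ∧ ¬ (a = u ∧ b = w) ∧ ¬ (a = w ∧ b = u)
    | none, some b => b = u ∨ b = w ∨ (G.Adj u b ∧ G.Adj w b)
    | some a, none => a = u ∨ a = w ∨ (G.Adj u a ∧ G.Adj w a)
    | none, none => False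
  symm := ⟨fun x y h => by
    rcases x with _ | a <;> rcases y with _ | b <;> simp only at h ⊢
    · exact h
    · exact h
    · exact ⟨h.1.symm, fun hc => h.2.2 ⟨hc.2, hc.1⟩, fun hc => h.2.1 ⟨hc.2, hc.1⟩⟩⟩
  loopless := ⟨fun x h => by
    rcases x with _ | a
    · exact h
    · exact G.loopless.irrefl a h.1⟩

/-- the join of two graphs -/
def joinG {V W : Type} (G : SimpleGraph V) (H : SimpleGraph W) : SimpleGraph (V ⊕ W) where
  Adj x y := match x, y with
    | .inl a, .inl b => G.Adj a b
    | .inr a, .inr b => H.Adj a b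
    | .inl _, .inr _ => True
    | .inr _, .inl _ => True
  symm := ⟨fun x y h => by
    rcases x with a | a <;> rcases y with b | b <;> simp only at h ⊢
    · exact h.symm
    · exact h.symm⟩
  loopless := ⟨fun x h => by
    rcases x with a | a
    · exact G.loopless.irrefl a h
    · exact H.loopless.irrefl a h⟩

/-- The vertex split of `x` with parts `A` and `B` (where `A ∪ B` is the set of neighbours of `x`):
the vertex `x` is replaced by two adjacent vertices, `some x` with the other neighbours `A`, and
`none` with the other neighbours `B`.  The link of the new edge is `A ∩ B`. -/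
def vertexSplit {V : Type} (G : SimpleGraph V) (x : V) (A B : Set V) : SimpleGraph (Option V) where
  Adj y z := match y, z with
    | some a, some b => G.Adj a b ∧ (a = x → b ∈ A) ∧ (b = x → a ∈ A)
    | none, some b => b = x ∨ (G.Adj x b ∧ b ∈ B)
    | some a, none => a = x ∨ (G.Adj x a ∧ a ∈ B)
    | none, none => False
  symm := ⟨fun y z h => by
    rcases y with _ | a <;> rcases z with _ | b <;> simp only at h ⊢
    · exact h
    · exact h
    · exact ⟨h.1.symm, h.2.2, h.2.1⟩⟩
  loopless := ⟨fun y h => by
    rcases y with _ | a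
    · exact h
    · exact G.loopless.irrefl a h.1⟩

/-- `SmallSphere G k`: joins of pairs of (nonadjacent) points (`k = 1`) and pentagons (`k = 2`);
the numbers `k` add up -/
inductive SmallSphere : ∀ {V : Type}, SimpleGraph V → ℕ → Prop
  | empty {V : Type} (G : SimpleGraph V) (hV : IsEmpty V) : SmallSphere G 0
  | pair : SmallSphere (⊥ : SimpleGraph (Fin 2)) 1
  | pentagon : SmallSphere (SimpleGraph.cycleGraph 5) 2
  | join {V W : Type} (G : SimpleGraph V) (H : SimpleGraph W) (a b : ℕ) :
      SmallSphere G a → SmallSphere H b → SmallSphere (joinG G H) (a + b)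
  | iso {V W : Type} (G : SimpleGraph V) (H : SimpleGraph W) (k : ℕ) (φ : G ≃g H) :
      SmallSphere H k → SmallSphere G k

end Pool.Agent.H85.Fold4
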