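import Pool.Agent.H4.Fold3.Low
import Pool.Agent.H69.Join.JoinE

/-!
# Project FOLD, fourth stage: the class of graphs
-/

set_option autoImplicit false

open Finset

namespace Pool.Agent.H85.Fold4

open Pool.Agent.H4.Singer Pool.Agent.H85.Fold Pool.Agent.H85.Fold2 Pool.Agent.H4.Fold3

/-- The class `Good G k Y` of induced subgraphs `Y` of `G`; the number `k` is the degree above which
the `L²`-homology of the right-angled Coxeter group of `Y` vanishes.
* `finite`: cliques (finite Coxeter groups);
* `up`: increasing `k`;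
* `join`: joins (direct products of groups) add the degrees;
* `glue`: unions without edges between the two differences (amalgamated products), if the
  intersection is in the class for `k`;
* `fold`: induced subgraphs of folded homology spheres of dimension `n - 1 ≤ 2 k`;
* `link`: adding a vertex `u` to an induced subgraph of a homology sphere of dimension `2 k` in which
  the link of `u` has normalized folding vectors. -/
inductive Good {V : Type} [DecidableEq V] [Fintype V] (G : SimpleGraph V) : ℕ → Finset V → Prop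
  | finite (Y : Finset V) (hY : Cl G Y) : Good G 0 Y
  | up (k : ℕ) (Y : Finset V) : Good G k Y → Good G (k + 1) Y
  | join (a b : ℕ) (A B : Finset V) (hAB : ∀ u ∈ A, ∀ v ∈ B, G.Adj u v) :
      Good G a A → Good G b B → Good G (a + b) (A ∪ B)
  | glue (k : ℕ) (Y Y' : Finset V) (hYY : ∀ u ∈ Y \ Y', ∀ v ∈ Y' \ Y, ¬ G.Adj u v) :
      Good G (k + 1) Y → Good G (k + 1) Y' → Good G k (Y ∩ Y') → Good G (k + 1) (Y ∪ Y')
  | fold (k n : ℕ) (hn : n ≤ 2 * k + 1) (Y : Finset V) (W : Type) (decW : DecidableEq W)
      (finW : Fintype W) (H : SimpleGraph W) (hH : IsFoldSphere H n) (φ : V → W)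
      (hφ : ∀ u ∈ Y, ∀ v ∈ Y, φ u = φ v → u = v)
      (hadj : ∀ u ∈ Y, ∀ v ∈ Y, G.Adj u v ↔ H.Adj (φ u) (φ v)) : Good G k Y
  | link (k : ℕ) (Y : Finset V) (u : V) (hu : u ∈ Y) (W : Type) (decW : DecidableEq W)
      (finW : Fintype W) (H : SimpleGraph W) (φ : V → W)
      (hφ : ∀ u ∈ Y, ∀ v ∈ Y, φ u = φ v → u = v)
      (hadj : ∀ u ∈ Y, ∀ v ∈ Y, G.Adj u v ↔ H.Adj (φ u) (φ v))
      (hH : IsFoldLink H k (φ u)) : Good G k (Y.erase u) → Good G k Y

variable {V : Type} [DecidableEq V] [Fintype V] {ν : V → ℕ} {G : SimpleGraph V}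

theorem PV.cone (hν : Function.Injective ν) {n : ℕ} {Y : Finset V} {v : V}
    (hv : ∀ u ∈ Y, G.Adj v u) (h : PV ν G n Y) : PV ν G n (insert v Y) := by
  intro Z hZ i hi
  by_cases hvZ : v ∈ Z
  · have hZ' : Z.erase v ⊆ Y := by
      intro u hu
      rw [Finset.mem_erase] at hu
      exact (Finset.mem_insert.1 (hZ hu.2)).resolve_left hu.1
    have h1 := h (Z.erase v) hZ' i hi
    have h2 : Z = insert v (Z.erase v) := (Finset.insert_erase hvZ).symm
    rw [h2]
    refine GVan.of_le h1 h1 h1 ?_
    intro P _ _ g hg hgc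
    have h3 := bP_cone ν hν G (Z.erase v) g hg hgc v (fun u hu => hv u (hZ' hu)) i
    omega
  · refine h Z ?_ i hi
    intro u hu
    exact (Finset.mem_insert.1 (hZ hu)).resolve_left (fun h => hvZ (h ▸ hu))

theorem PV.empty {n : ℕ} : PV ν G n ∅ := by
  intro Z hZ i hi
  rw [Finset.subset_empty.1 hZ]
  obtain ⟨j, rfl⟩ : ∃ j, i = j + 1 := ⟨i - 1, by omega⟩
  exact gvan_empty j

theorem PV.clique (hν : Function.Injective ν) {n : ℕ} {Y : Finset V} (hY : Cl G Y) :
    PV ν G n Y := by
  induction Y using Finset.induction_on with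
  | empty => exact PV.empty
  | insert v Y hv ih =>
    refine PV.cone hν (fun u hu => ?_) (ih fun a ha b hb hab => hY a
      (Finset.mem_insert_of_mem ha) b (Finset.mem_insert_of_mem hb) hab)
    exact hY v (Finset.mem_insert_self _ _) u (Finset.mem_insert_of_mem hu)
      (fun h => hv (h ▸ hu))

/-- **Zero growth for the class.** -/
theorem Good.pv (hν : Function.Injective ν) {k : ℕ} {Y : Finset V} (h : Good G k Y) :
    PV ν G (2 * k + 1) Y := by
  induction h with
  | finite Y hY => exact PV.clique hν hY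
  | up k Y _ ih =>
    intro Z hZ i hi
    exact ih Z hZ i (by omega)
  | join a b A B hAB _ _ ih1 ih2 =>
    exact Pool.Agent.H69.Join.gvan_join (n := 2 * (a + b) + 1) hν hAB (by omega) ih1 ih2
  | glue k Y Y' hYY _ _ _ ih1 ih2 ih3 =>
    intro Z hZ i hi
    obtain ⟨j, rfl⟩ : ∃ j, i = j + 1 := ⟨i - 1, by omega⟩
    have h1 := ih1 (Z ∩ Y) Finset.inter_subset_right (j + 1) hi
    have h2 := ih2 (Z ∩ Y') Finset.inter_subset_right (j + 1) hi
    have h3 := ih3 ((Z ∩ Y) ∩ (Z ∩ Y')) (Finset.inter_subset_inter Finset.inter_subset_right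
      Finset.inter_subset_right) j (by omega)
    have hZe : Z = (Z ∩ Y) ∪ (Z ∩ Y') := by
      rw [← Finset.inter_union_distrib_left, Finset.inter_eq_left.2 hZ]
    rw [hZe]
    refine GVan.of_le h1 h2 h3 ?_
    intro P _ _ g hg hgc
    refine bP_glue ν hν G (Z ∩ Y) (Z ∩ Y') ?_ g hg hgc j
    intro u hu v hv
    rw [Finset.mem_sdiff, Finset.mem_inter, Finset.mem_inter] at hu hv
    exact hYY u (Finset.mem_sdiff.2 ⟨hu.1.2, fun h => hu.2 ⟨hu.1.1, h⟩⟩) v
      (Finset.mem_sdiff.2 ⟨hv.1.2, fun h => hv.2 ⟨hv.1.1, h⟩⟩)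
  | fold k n hn Y W decW finW H hH φ hφ hadj =>
    intro Z hZ i hi
    exact gvan_fold ν hν G n Z H hH φ (fun u hu v hv => hφ u (hZ hu) v (hZ hv))
      (fun u hu v hv => hadj u (hZ hu) v (hZ hv)) i (by omega)
  | link k Y u hu W decW finW H φ hφ hadj hH _ ih =>
    obtain ⟨h1, m, p, a, hf⟩ := hH
    intro Z hZ i hi
    by_cases huZ : u ∈ Z
    · refine gvan_loc ν hν G k Z H h1 φ (fun u hu v hv => hφ u (hZ hu) v (hZ hv))
        (fun u hu v hv => hadj u (hZ hu) v (hZ hv)) u huZ p a hf i (by omega) ?_
      exact ih (Z.erase u) (Finset.erase_subset_erase u hZ) i hi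
    · refine ih Z ?_ i hi
      intro v hv
      exact Finset.mem_erase.2 ⟨fun h => huZ (h ▸ hv), hZ hv⟩

/-- **The main theorem.** -/
theorem Good.l2 {k : ℕ} (hG : Good G k univ) (i : ℕ) (hi : k < i) : L2HomologyZero G i := by
  intro ν hν z hz hdz ε hε
  exact l2_hodge G ν hν i
    (GVan.harm hν (hG.pv hν univ (Finset.Subset.refl _) i (by omega))) z hz hdz ε hε

theorem Good.mono {k l : ℕ} {Y : Finset V} (h : Good G k Y) (hkl : k ≤ l) : Good G l Y := by
  induction l, hkl using Nat.le_induction with
  | base => exact h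
  | succ l _ ih => exact Good.up l Y ih

theorem Good.empty (k : ℕ) : Good G k ∅ :=
  (Good.finite ∅ (fun _ h => absurd h (Finset.notMem_empty _))).mono (Nat.zero_le k)

/-- adding a vertex whose link is in the class for `k` -/
theorem Good.vertex {k : ℕ} {Y : Finset V} {v : V} (hv : v ∈ Y) (h1 : Good G k (nbr G v Y))
    (h2 : Good G (k + 1) (Y.erase v)) : Good G (k + 1) Y := by
  have h3 : Good G (0 + k) ({v} ∪ nbr G v Y) := by
    refine Good.join 0 k {v} _ ?_ (Good.finite {v} ?_) h1
    · intro u hu w hw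
      rw [Finset.mem_singleton.1 hu]
      exact (mem_nbr.1 hw).2
    · intro a ha b hb hab
      rw [Finset.mem_singleton] at ha hb
      exact absurd (ha.trans hb.symm) hab
  rw [zero_add] at h3
  have h4 : (Y.erase v) ∩ ({v} ∪ nbr G v Y) = nbr G v Y := by
    ext u
    simp only [Finset.mem_inter, Finset.mem_erase, Finset.mem_union, Finset.mem_singleton, mem_nbr]
    constructor
    · rintro ⟨⟨h1, h2⟩, h3⟩
      exact h3.resolve_left h1
    · rintro ⟨h1, h2⟩
      exact ⟨⟨fun h => h2.ne h.symm, h1⟩, Or.inr ⟨h1, h2⟩⟩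
  have h5 : (Y.erase v) ∪ ({v} ∪ nbr G v Y) = Y := by
    ext u
    simp only [Finset.mem_union, Finset.mem_erase, Finset.mem_singleton, mem_nbr]
    constructor
    · rintro (h | h | h)
      · exact h.2
      · exact h ▸ hv
      · exact h.1
    · intro h
      by_cases huv : u = v
      · exact Or.inr (Or.inl huv)
      · exact Or.inl ⟨huv, h⟩
  rw [← h5]
  refine Good.glue k _ _ ?_ h2 (Good.up k _ h3) (by rw [h4]; exact h1)
  intro u hu w hw
  have hw' : w = v := by
    simp only [Finset.mem_sdiff, Finset.mem_union, Finset.mem_singleton, mem_nbr,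
      Finset.mem_erase] at hw
    rcases hw.1 with h | h
    · exact h
    · by_contra hne
      exact hw.2 ⟨hne, h.1⟩
  simp only [Finset.mem_sdiff, Finset.mem_union, Finset.mem_singleton, mem_nbr,
    Finset.mem_erase] at hu
  intro hadj
  rw [hw'] at hadj
  exact hu.2 (Or.inr ⟨hu.1.2, hadj.symm⟩)

/-- if the links of the vertices in `Z` are good, these vertices may be added to a set -/
theorem Good.of_sdiff (k : ℕ) (Y Z : Finset V) (hZ : ∀ u ∈ Z, IsFoldLink G k u)
    (h : Good G k (Y \ Z)) : Good G k Y := by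
  induction Z using Finset.induction_on with
  | empty => simpa using h
  | insert u Z hu ih =>
    refine ih (fun v hv => hZ v (Finset.mem_insert_of_mem hv)) ?_
    have h1 : Y \ insert u Z = (Y \ Z).erase u := by
      ext v
      simp only [Finset.mem_sdiff, Finset.mem_insert, Finset.mem_erase, not_or]
      tauto
    rw [h1] at h
    by_cases huY : u ∈ Y \ Z
    · exact Good.link k (Y \ Z) u huY V inferInstance inferInstance G id (fun _ _ _ _ h => h)
        (fun _ _ _ _ => Iff.rfl) (hZ u (Finset.mem_insert_self _ _)) h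
    · rwa [Finset.erase_eq_of_notMem huY] at h

/-- subsets without cliques of `k + 1` vertices -/
theorem Good.of_small (k : ℕ) (Y : Finset V) (hY : ∀ σ ⊆ Y, Cl G σ → σ.card ≤ k) : Good G k Y := by
  induction k generalizing Y with
  | zero =>
    have h1 : Y = ∅ := by
      rw [Finset.eq_empty_iff_forall_notMem]
      intro v hv
      have h1 := hY {v} (Finset.singleton_subset_iff.2 hv) (by
        intro a ha b hb hab
        rw [Finset.mem_singleton] at ha hb
        exact absurd (ha.trans hb.symm) hab)
      simp at h1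
    rw [h1]
    exact Good.empty 0
  | succ k ih =>
    induction Y using Finset.strongInduction with
    | H Y ihY =>
      by_cases hne : Y.Nonempty
      · obtain ⟨v, hv⟩ := hne
        refine Good.vertex hv (ih _ ?_) (ihY _ (Finset.erase_ssubset hv) ?_)
        · intro σ hσ hcl
          have h1 := hY (insert v σ) (by
            intro u hu
            rcases Finset.mem_insert.1 hu with rfl | hu
            · exact hv
            · exact (mem_nbr.1 (hσ hu)).1) (by
            intro a ha b hb hab
            rcases Finset.mem_insert.1 ha with ha | ha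
            · rcases Finset.mem_insert.1 hb with hb | hb
              · exact absurd (ha.trans hb.symm) hab
              · rw [ha]
                exact (mem_nbr.1 (hσ hb)).2
            · rcases Finset.mem_insert.1 hb with hb | hb
              · rw [hb]
                exact (mem_nbr.1 (hσ ha)).2.symm
              · exact hcl a ha b hb hab)
          have h2 : v ∉ σ := fun h => (mem_nbr.1 (hσ h)).2.ne rfl
          rw [Finset.card_insert_of_notMem h2] at h1
          omega
        · intro σ hσ
          exact hY σ (hσ.trans (Finset.erase_subset v Y))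
      · rw [Finset.not_nonempty_iff_eq_empty.1 hne]
        exact Good.empty (k + 1)

end Pool.Agent.H85.Fold4
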