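import Pool.Agent.H85.Fold4.Class

/-!
# Project FOLD, fourth stage: induced subgraphs
-/

set_option autoImplicit false

open Finset

namespace Pool.Agent.H85.Fold4

open Pool.Agent.H4.Singer Pool.Agent.H85.Fold Pool.Agent.H85.Fold2 Pool.Agent.H4.Fold3

variable {V : Type} [DecidableEq V] [Fintype V] {G : SimpleGraph V}

/-- the class is invariant under isomorphisms and passes to induced subgraphs -/
theorem Good.pull {k : ℕ} {Y : Finset V} (h : Good G k Y) {V' : Type} [DecidableEq V'] [Fintype V']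
    {G' : SimpleGraph V'} {Y' : Finset V'} {φ : V' → V} (hY : ∀ u ∈ Y', φ u ∈ Y)
    (hφ : ∀ u ∈ Y', ∀ v ∈ Y', φ u = φ v → u = v)
    (hadj : ∀ u ∈ Y', ∀ v ∈ Y', G'.Adj u v ↔ G.Adj (φ u) (φ v)) : Good G' k Y' := by
  induction h generalizing Y' with
  | finite Y hcl =>
    refine Good.finite Y' fun u hu v hv huv => ?_
    exact (hadj u hu v hv).2 (hcl _ (hY u hu) _ (hY v hv) fun h => huv (hφ u hu v hv h))
  | up k Y _ ih => exact Good.up k Y' (ih hY hφ hadj)
  | join a b A B hAB _ _ ih1 ih2 =>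
    have h1 : ∀ u ∈ Y'.filter (fun u => φ u ∈ A), u ∈ Y' := fun u hu => (Finset.mem_filter.1 hu).1
    have h2 : ∀ u ∈ Y'.filter (fun u => φ u ∈ B), u ∈ Y' := fun u hu => (Finset.mem_filter.1 hu).1
    have h3 : Y' = Y'.filter (fun u => φ u ∈ A) ∪ Y'.filter (fun u => φ u ∈ B) := by
      ext u
      simp only [Finset.mem_union, Finset.mem_filter]
      constructor
      · intro hu
        rcases Finset.mem_union.1 (hY u hu) with h | h
        · exact Or.inl ⟨hu, h⟩
        · exact Or.inr ⟨hu, h⟩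
      · rintro (h | h)
        · exact h.1
        · exact h.1
    rw [h3]
    refine Good.join a b _ _ ?_
      (ih1 (fun u hu => (Finset.mem_filter.1 hu).2)
        (fun u hu v hv => hφ u (h1 u hu) v (h1 v hv))
        (fun u hu v hv => hadj u (h1 u hu) v (h1 v hv)))
      (ih2 (fun u hu => (Finset.mem_filter.1 hu).2)
        (fun u hu v hv => hφ u (h2 u hu) v (h2 v hv))
        (fun u hu v hv => hadj u (h2 u hu) v (h2 v hv)))
    intro u hu v hv
    exact (hadj u (h1 u hu) v (h2 v hv)).2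
      (hAB _ (Finset.mem_filter.1 hu).2 _ (Finset.mem_filter.1 hv).2)
  | glue k Y₁ Y₂ hYY _ _ _ ih1 ih2 ih3 =>
    have h1 : ∀ u ∈ Y'.filter (fun u => φ u ∈ Y₁), u ∈ Y' :=
      fun u hu => (Finset.mem_filter.1 hu).1
    have h2 : ∀ u ∈ Y'.filter (fun u => φ u ∈ Y₂), u ∈ Y' :=
      fun u hu => (Finset.mem_filter.1 hu).1
    have h3 : Y' = Y'.filter (fun u => φ u ∈ Y₁) ∪ Y'.filter (fun u => φ u ∈ Y₂) := by
      ext u
      simp only [Finset.mem_union, Finset.mem_filter]
      constructor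
      · intro hu
        rcases Finset.mem_union.1 (hY u hu) with h | h
        · exact Or.inl ⟨hu, h⟩
        · exact Or.inr ⟨hu, h⟩
      · rintro (h | h)
        · exact h.1
        · exact h.1
    rw [h3]
    refine Good.glue k _ _ ?_
      (ih1 (fun u hu => (Finset.mem_filter.1 hu).2)
        (fun u hu v hv => hφ u (h1 u hu) v (h1 v hv))
        (fun u hu v hv => hadj u (h1 u hu) v (h1 v hv)))
      (ih2 (fun u hu => (Finset.mem_filter.1 hu).2)
        (fun u hu v hv => hφ u (h2 u hu) v (h2 v hv))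
        (fun u hu v hv => hadj u (h2 u hu) v (h2 v hv)))
      (ih3 (fun u hu => by
          rw [Finset.mem_inter, Finset.mem_filter, Finset.mem_filter] at hu
          exact Finset.mem_inter.2 ⟨hu.1.2, hu.2.2⟩)
        (fun u hu v hv => hφ u (h1 u (Finset.mem_inter.1 hu).1) v (h1 v (Finset.mem_inter.1 hv).1))
        (fun u hu v hv => hadj u (h1 u (Finset.mem_inter.1 hu).1) v
          (h1 v (Finset.mem_inter.1 hv).1)))
    intro u hu v hv
    rw [Finset.mem_sdiff, Finset.mem_filter, Finset.mem_filter] at hu hv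
    rw [hadj u hu.1.1 v hv.1.1]
    exact hYY _ (Finset.mem_sdiff.2 ⟨hu.1.2, fun h => hu.2 ⟨hu.1.1, h⟩⟩) _
      (Finset.mem_sdiff.2 ⟨hv.1.2, fun h => hv.2 ⟨hv.1.1, h⟩⟩)
  | fold k n hn Y W decW finW H hH ψ hψ hadj' =>
    refine Good.fold k n hn Y' W decW finW H hH (fun u => ψ (φ u)) ?_ ?_
    · intro u hu v hv h
      exact hφ u hu v hv (hψ _ (hY u hu) _ (hY v hv) h)
    · intro u hu v hv
      rw [hadj u hu v hv]
      exact hadj' _ (hY u hu) _ (hY v hv)
  | link k Y u hu W decW finW H ψ hψ hadj' hH _ ih =>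
    by_cases hex : ∃ u' ∈ Y', φ u' = u
    · obtain ⟨u', hu', rfl⟩ := hex
      refine Good.link k Y' u' hu' W decW finW H (fun u => ψ (φ u)) ?_ ?_ hH
        (ih (fun v hv => ?_) ?_ ?_)
      · intro u hu v hv h
        exact hφ u hu v hv (hψ _ (hY u hu) _ (hY v hv) h)
      · intro u hu v hv
        rw [hadj u hu v hv]
        exact hadj' _ (hY u hu) _ (hY v hv)
      · rw [Finset.mem_erase] at hv ⊢
        exact ⟨fun h => hv.1 (hφ v hv.2 u' hu' h), hY v hv.2⟩
      · intro v hv w hw
        exact hφ v (Finset.mem_of_mem_erase hv) w (Finset.mem_of_mem_erase hw)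
      · intro v hv w hw
        exact hadj v (Finset.mem_of_mem_erase hv) w (Finset.mem_of_mem_erase hw)
    · push Not at hex
      exact ih (fun v hv => Finset.mem_erase.2 ⟨hex v hv, hY v hv⟩) hφ hadj

theorem Good.subset {k : ℕ} {Y Z : Finset V} (h : Good G k Y) (hZ : Z ⊆ Y) : Good G k Z :=
  h.pull (φ := id) hZ (fun _ _ _ _ h => h) (fun _ _ _ _ => Iff.rfl)

/-- the induced subgraph as a graph -/
theorem Good.induce {k : ℕ} {Y : Finset V} (h : Good G k Y) :
    Good (G.comap (Subtype.val : {v // v ∈ Y} → V)) k univ :=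
  h.pull (φ := Subtype.val) (fun u _ => u.2) (fun _ _ _ _ h => Subtype.ext h)
    (fun _ _ _ _ => Iff.rfl)

/-- **The main theorem** for induced subgraphs -/
theorem Good.l2_induce {k : ℕ} {Y : Finset V} (h : Good G k Y) (i : ℕ) (hi : k < i) :
    L2HomologyZero (G.comap (Subtype.val : {v // v ∈ Y} → V)) i :=
  h.induce.l2 i hi

/-- comparison with the class `FW` -/
theorem _root_.Pool.Agent.H4.Fold3.FW.good {n : ℕ} {Y : Finset V} (h : FW G n Y) :
    Good G (n / 2) Y := by
  induction h with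
  | empty n => exact Good.empty _
  | fold n Y W decW finW H hH φ hφ hadj =>
    exact Good.fold (n / 2) n (by omega) Y W decW finW H hH φ hφ hadj
  | up n Y _ ih => exact ih.mono (by omega)
  | cone n Y v hv _ ih =>
    have h1 : Good G (0 + n / 2) ({v} ∪ Y) := by
      refine Good.join 0 _ {v} Y ?_ (Good.finite {v} ?_) ih
      · intro u hu w hw
        rw [Finset.mem_singleton.1 hu]
        exact hv w hw
      · intro a ha b hb hab
        rw [Finset.mem_singleton] at ha hb
        exact absurd (ha.trans hb.symm) hab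
    rw [zero_add] at h1
    rwa [Finset.insert_eq]
  | glue n Y Y' hYY _ _ _ ih1 ih2 ih3 =>
    have e : (n + 2) / 2 = n / 2 + 1 := by omega
    rw [e] at ih1 ih2 ⊢
    exact Good.glue _ Y Y' hYY ih1 ih2 ih3
  | vertex n Y v hv _ _ ih1 ih2 =>
    have e : (n + 2) / 2 = n / 2 + 1 := by omega
    rw [e] at ih2 ⊢
    exact Good.vertex hv ih1 ih2
  | even n hn Y v hv _ _ ih1 ih2 =>
    have e : (n + 2) / 2 = n / 2 + 1 := by omega
    have e' : (n + 1) / 2 = n / 2 := by
      obtain ⟨k, rfl⟩ := hn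
      omega
    rw [e] at ih2 ⊢
    rw [e'] at ih1
    exact Good.vertex hv ih1 ih2
  | loc k Y u hu W decW finW H φ hφ hadj hH _ ih =>
    have e : (2 * k + 1) / 2 = k := by omega
    rw [e] at ih ⊢
    exact Good.link k Y u hu W decW finW H φ hφ hadj hH ih

/-- homology spheres of dimension at most three -/
theorem Good.low {n : ℕ} (hn : n ≤ 4) (hG : IsHomologySphere G n) : Good G (n / 2) univ :=
  (FW.low hn hG).good

/-- **Homology spheres of even dimension** `2 k`. -/
theorem Good.sphere (k : ℕ) (hG : IsHomologySphere G (2 * k + 1)) (A : Finset V)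
    (hL : ∀ u, u ∉ A → HasFoldL G k (nbr G u univ)) (hA : Good G k A) : Good G k univ := by
  refine Good.of_sdiff k univ Aᶜ (fun u hu => ⟨hG, hL u (Finset.mem_compl.1 hu)⟩) ?_
  rwa [← Finset.compl_eq_univ_sdiff, compl_compl]

/-- adding vertices whose links are in the class -/
theorem Good.of_vertices (k : ℕ) (B : Finset V) (hB : Good G (k + 1) B)
    (h : ∀ v, v ∉ B → Good G k (nbr G v univ)) : Good G (k + 1) univ := by
  have key : ∀ Z : Finset V, Disjoint Z B → Good G (k + 1) (Z ∪ B) := by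
    intro Z
    induction Z using Finset.induction_on with
    | empty => intro _; rwa [Finset.empty_union]
    | insert v Z hv ih =>
      intro hd
      rw [Finset.disjoint_insert_left] at hd
      rw [Finset.insert_union]
      refine Good.vertex (v := v) (Finset.mem_insert_self _ _) ((h v hd.1).subset ?_) ?_
      · intro u hu
        rw [mem_nbr] at hu ⊢
        exact ⟨Finset.mem_univ _, hu.2⟩
      · rw [Finset.erase_insert]
        · exact ih hd.2
        · rw [Finset.mem_union]
          rintro (h' | h')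
          · exact hv h'
          · exact hd.1 h'
  have h1 := key Bᶜ (Finset.disjoint_left.2 fun u hu => Finset.mem_compl.1 hu)
  rwa [Finset.union_comm, Finset.union_compl] at h1

/-- the link of a vertex of a homology sphere of odd dimension `2 k + 1` -/
theorem Good.link_sphere (k : ℕ) (hG : IsHomologySphere G (2 * k + 2)) (v : V) (A : Finset V)
    (hL : ∀ u, G.Adj v u → u ∉ A → HasFoldL G k (nbr G u (nbr G v univ)))
    (hA : Good G k (nbr G v A)) : Good G k (nbr G v univ) := by
  classical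
  have hlk := link_homologySphere hG v
  by_cases hne : ∃ w, G.Adj v w
  · obtain ⟨w₀, hw₀⟩ := hne
    have h1 : Good (G.comap (Subtype.val : {w // G.Adj v w} → V)) k univ := by
      refine Good.sphere k hlk (univ.filter fun w => w.1 ∈ A) ?_ ?_
      · rintro ⟨u, hu⟩ huA
        have huA' : u ∉ A := fun h => huA (Finset.mem_filter.2 ⟨Finset.mem_univ _, h⟩)
        obtain ⟨m, p, a, hf⟩ := hL u hu huA'
        refine ⟨m, fun w => p w.1, fun w => a w.1, ⟨?_, ?_, ?_⟩⟩
        · rintro ⟨x, hx⟩ hx1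
          refine hf.one x ?_
          rw [mem_nbr] at hx1 ⊢
          exact ⟨mem_nbr.2 ⟨Finset.mem_univ _, hx⟩, hx1.2⟩
        · rintro ⟨x, hx⟩ hx1 ⟨y, hy⟩ hy1 hxy
          refine hf.zero x ?_ y ?_ hxy
          · rw [mem_nbr] at hx1 ⊢
            exact ⟨mem_nbr.2 ⟨Finset.mem_univ _, hx⟩, hx1.2⟩
          · rw [mem_nbr] at hy1 ⊢
            exact ⟨mem_nbr.2 ⟨Finset.mem_univ _, hy⟩, hy1.2⟩
        · rintro ⟨x, hx⟩ hx1 ⟨y, hy⟩ hy1 hne' hxy
          refine hf.neg x ?_ y ?_ (fun he => hne' (Subtype.ext he)) hxy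
          · rw [mem_nbr] at hx1 ⊢
            exact ⟨mem_nbr.2 ⟨Finset.mem_univ _, hx⟩, hx1.2⟩
          · rw [mem_nbr] at hy1 ⊢
            exact ⟨mem_nbr.2 ⟨Finset.mem_univ _, hy⟩, hy1.2⟩
      · refine hA.pull (φ := Subtype.val) ?_ (fun _ _ _ _ h => Subtype.ext h)
          (fun _ _ _ _ => Iff.rfl)
        rintro ⟨u, hu⟩ h
        exact mem_nbr.2 ⟨(Finset.mem_filter.1 h).2, hu⟩
    refine h1.pull (φ := fun w => if hw : G.Adj v w then ⟨w, hw⟩ else ⟨w₀, hw₀⟩)
      (fun _ _ => Finset.mem_univ _) ?_ ?_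
    · intro x hx y hy hxy
      have hx' : G.Adj v x := (mem_nbr.1 hx).2
      have hy' : G.Adj v y := (mem_nbr.1 hy).2
      simp only [hx', hy', dif_pos] at hxy
      exact congrArg Subtype.val hxy
    · intro x hx y hy
      have hx' : G.Adj v x := (mem_nbr.1 hx).2
      have hy' : G.Adj v y := (mem_nbr.1 hy).2
      simp only [hx', hy', dif_pos, SimpleGraph.comap_adj]
  · have h0 : nbr G v univ = ∅ := by
      rw [Finset.eq_empty_iff_forall_notMem]
      intro w hw
      exact hne ⟨w, (mem_nbr.1 hw).2⟩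
    rw [h0]
    exact Good.empty k

end Pool.Agent.H85.Fold4
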